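import Mathlib
import Pool.Agent.Lib.H8.Shear

set_option autoImplicit false

namespace Pool.Agent.Results.MP_eccde5_an.Sharp

open Pool.Agent.Lib.H8.Shear

/-- The class `N_A` for `A = diag(a, b)` on the Euclidean unit ball of `ℂ²`. -/
def InN (a b : ℝ) (h : EuclideanSpace ℂ (Fin 2) → EuclideanSpace ℂ (Fin 2)) : Prop :=
  AnalyticOnNhd ℂ h (Metric.ball 0 1) ∧ h 0 = 0 ∧
    (∀ z, fderiv ℂ h 0 z = !₂[a * z 0, b * z 1]) ∧
    ∀ z ∈ Metric.ball (0 : EuclideanSpace ℂ (Fin 2)) 1, z ≠ 0 →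
      0 < (h z 0 * (starRingEnd ℂ) (z 0) + h z 1 * (starRingEnd ℂ) (z 1)).re

/-- the root in `(0,1)` of `(k-1)(α-β)s² + (α+kβ)s - β` -/
noncomputable def crit (α β : ℝ) (k : ℕ) : ℝ :=
  2 * β / (α + k * β + √(α ^ 2 + (6 * k - 4) * α * β + (k - 2) ^ 2 * β ^ 2))

/-- the sharp constant -/
noncomputable def bound (α β : ℝ) (k : ℕ) : ℝ :=
  (α * crit α β k + β * (1 - crit α β k)) / √(crit α β k * (1 - crit α β k) ^ k)

theorem nsq (z : EuclideanSpace ℂ (Fin 2)) : ‖z‖ ^ 2 = ‖z 0‖ ^ 2 + ‖z 1‖ ^ 2 := by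
  rw [EuclideanSpace.norm_sq_eq, Fin.sum_univ_two]

theorem mem_ball (z : EuclideanSpace ℂ (Fin 2)) :
    z ∈ Metric.ball (0 : EuclideanSpace ℂ (Fin 2)) 1 ↔ ‖z 0‖ ^ 2 + ‖z 1‖ ^ 2 < 1 := by
  rw [mem_ball_zero_iff, ← nsq, sq_lt_one_iff₀ (norm_nonneg _)]

theorem pos_of_ne (z : EuclideanSpace ℂ (Fin 2)) (hz : z ≠ 0) : 0 < ‖z 0‖ ^ 2 + ‖z 1‖ ^ 2 := by
  rw [← nsq]
  exact pow_pos (norm_pos_iff.2 hz) 2

noncomputable def mk2 {F : Type} [NormedAddCommGroup F] [NormedSpace ℂ F] (x y : F →L[ℂ] ℂ) :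
    F →L[ℂ] EuclideanSpace ℂ (Fin 2) :=
  x.smulRight !₂[1, 0] + y.smulRight !₂[0, 1]

theorem mk2_apply {F : Type} [NormedAddCommGroup F] [NormedSpace ℂ F] (x y : F →L[ℂ] ℂ) (p : F) :
    mk2 x y p = !₂[x p, y p] := by
  ext i
  fin_cases i <;> simp [mk2]

theorem comp {a b : ℝ} {h : EuclideanSpace ℂ (Fin 2) → EuclideanSpace ℂ (Fin 2)} (H : InN a b h)
    (x y : ℂ × ℂ →L[ℂ] ℂ) (hxy : ∀ p, ‖x p‖ ^ 2 + ‖y p‖ ^ 2 = ‖p.1‖ ^ 2 + ‖p.2‖ ^ 2) (i : Fin 2) :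
    AnalyticOnNhd ℂ (fun p => h !₂[x p, y p] i) U ∧
      HasFDerivAt (fun p => h !₂[x p, y p] i)
        ((EuclideanSpace.proj i).comp ((fderiv ℂ h 0).comp (mk2 x y))) 0 := by
  have e : (fun p => h !₂[x p, y p] i) = (EuclideanSpace.proj i : _ →L[ℂ] ℂ) ∘ h ∘ mk2 x y := by
    ext p
    simp [mk2_apply]
  rw [e]
  refine ⟨fun p hp => ((EuclideanSpace.proj i : _ →L[ℂ] ℂ).analyticAt _).comp
    ((H.1 _ ?_).comp ((mk2 x y).analyticAt _)), ?_⟩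
  · rw [mem_ball, mk2_apply]
    exact (hxy p).trans_lt hp
  · refine (EuclideanSpace.proj i : _ →L[ℂ] ℂ).hasFDerivAt.comp _
      (HasFDerivAt.comp _ ?_ (mk2 x y).hasFDerivAt)
    rw [map_zero]
    exact (H.1 0 (Metric.mem_ball_self one_pos)).differentiableAt.hasFDerivAt

theorem hpow (m : ℕ) (hm : m ≠ 0) (i : Fin 2) :
    HasFDerivAt (fun z : EuclideanSpace ℂ (Fin 2) => z i ^ (m + 1))
      (0 : EuclideanSpace ℂ (Fin 2) →L[ℂ] ℂ) 0 :=
  ((EuclideanSpace.proj i : EuclideanSpace ℂ (Fin 2) →L[ℂ] ℂ).hasFDerivAt.pow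
      (x := 0) (m + 1)).congr_fderiv (by ext; simp [zero_pow hm])

theorem hlin (c : ℂ) (i : Fin 2) : HasFDerivAt (fun z : EuclideanSpace ℂ (Fin 2) => c * z i)
    (c • (EuclideanSpace.proj i : EuclideanSpace ℂ (Fin 2) →L[ℂ] ℂ)) 0 :=
  (EuclideanSpace.proj i : EuclideanSpace ℂ (Fin 2) →L[ℂ] ℂ).hasFDerivAt.const_mul c

theorem vec_eq (u v : EuclideanSpace ℂ (Fin 2) → ℂ) : (fun z => !₂[u z, v z]) =
    fun z => u z • (!₂[1, 0] : EuclideanSpace ℂ (Fin 2)) + v z • !₂[0, 1] := by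
  ext z i
  fin_cases i <;> simp

theorem hvec (u v : EuclideanSpace ℂ (Fin 2) → ℂ) (u' v' : EuclideanSpace ℂ (Fin 2) →L[ℂ] ℂ)
    (hu : HasFDerivAt u u' 0) (hv : HasFDerivAt v v' 0) (z : EuclideanSpace ℂ (Fin 2)) :
    fderiv ℂ (fun z => !₂[u z, v z]) 0 z = !₂[u' z, v' z] := by
  have h1 := (hu.smul_const (!₂[1, 0] : EuclideanSpace ℂ (Fin 2))).fun_add
    (hv.smul_const (!₂[0, 1] : EuclideanSpace ℂ (Fin 2)))
  rw [vec_eq, h1.fderiv]
  exact mk2_apply u' v' z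

theorem hana (u v : EuclideanSpace ℂ (Fin 2) → ℂ) (hu : ∀ z, AnalyticAt ℂ u z)
    (hv : ∀ z, AnalyticAt ℂ v z) : AnalyticOnNhd ℂ (fun z => !₂[u z, v z]) (Metric.ball 0 1) := by
  intro z _
  rw [vec_eq]
  exact ((hu z).fun_smul analyticAt_const).fun_add ((hv z).fun_smul analyticAt_const)

theorem hco (i : Fin 2) (z : EuclideanSpace ℂ (Fin 2)) :
    AnalyticAt ℂ (fun z : EuclideanSpace ℂ (Fin 2) => z i) z :=
  (EuclideanSpace.proj i : EuclideanSpace ℂ (Fin 2) →L[ℂ] ℂ).analyticAt z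

theorem coef (c : ℝ) (hc : 0 ≤ c) (k : ℕ) :
    c = ‖iteratedDeriv k (fun t : ℂ => (c : ℂ) * t ^ k) 0 / k.factorial‖ := by
  have hfac : ((k.factorial : ℕ) : ℂ) ≠ 0 := by exact_mod_cast k.factorial_ne_zero
  rw [iteratedDeriv_const_mul_field, iteratedDeriv_fun_pow_zero, if_pos rfl, mul_div_assoc,
    div_self hfac, mul_one, Complex.norm_real, Real.norm_of_nonneg hc]

theorem result (a b : ℝ) (ha : 0 < a) (hb : 0 < b) (k : ℕ) (hk : 2 ≤ k) :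
    IsGreatest {c : ℝ | ∃ h, InN a b h ∧
      c = ‖iteratedDeriv k (fun t : ℂ => h !₂[0, t] 0) 0 / k.factorial‖} (bound a b k) ∧
    IsGreatest {c : ℝ | ∃ h, InN a b h ∧
      c = ‖iteratedDeriv k (fun t : ℂ => h !₂[t, 0] 1) 0 / k.factorial‖} (bound b a k) := by
  obtain ⟨m, rfl⟩ : ∃ m, k = m + 1 := ⟨k - 1, by omega⟩
  obtain ⟨r0, r1, rQ⟩ := root a b m (by omega) ha hb (crit a b (m + 1)) (by simp [crit])
  obtain ⟨s0, s1, sQ⟩ := root b a m (by omega) hb ha (crit b a (m + 1)) (by simp [crit])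
  have hpos : ∀ α β : ℝ, 0 < α → 0 < β → 0 < crit α β (m + 1) → crit α β (m + 1) < 1 →
      0 ≤ bound α β (m + 1) := fun α β h1 h2 h3 h4 => by
    have := sub_pos.2 h4
    unfold bound
    positivity
  have hpow := hpow m (by omega)
  refine ⟨⟨⟨fun z => !₂[a * z 0 + bound a b (m + 1) * z 1 ^ (m + 1), b * z 1],
      ⟨hana _ _ (fun z => ?_) (fun z => ?_), ?_, fun z => ?_, fun z hz h0 => ?_⟩, ?_⟩, ?_⟩,
    ⟨⟨fun z => !₂[a * z 0, b * z 1 + bound b a (m + 1) * z 0 ^ (m + 1)],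
      ⟨hana _ _ (fun z => ?_) (fun z => ?_), ?_, fun z => ?_, fun z hz h0 => ?_⟩, ?_⟩, ?_⟩⟩
  · exact (analyticAt_const.mul (hco 0 z)).add (analyticAt_const.mul ((hco 1 z).pow _))
  · exact analyticAt_const.mul (hco 1 z)
  · ext i
    fin_cases i <;> simp
  · rw [hvec _ _ _ _ ((hlin a 0).fun_add ((hpow 1).const_mul _)) (hlin b 1)]
    simp
  · exact attain a b _ m (by omega) ha hb r0 r1 rQ _ _ ((mem_ball z).1 hz) (pos_of_ne z h0)
  · have := coef _ (hpos a b ha hb r0 r1) (m + 1)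
    simpa using this
  · rintro _ ⟨h, H, rfl⟩
    have c0 := comp H (ContinuousLinearMap.fst ℂ ℂ ℂ) (ContinuousLinearMap.snd ℂ ℂ ℂ)
      (fun _ => rfl)
    unfold bound
    refine upper (fun p => h !₂[p.1, p.2] 0) (fun p => h !₂[p.1, p.2] 1) a b (crit a b (m + 1))
      (m + 1) hk r0 r1 (c0 0).1 (c0 1).1 ?_ ?_ fun p hp h0 => ?_
    · refine (c0 0).2.congr_fderiv ?_
      ext <;> simp [mk2_apply, H.2.2.1]
    · refine (c0 1).2.congr_fderiv ?_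
      ext <;> simp [mk2_apply, H.2.2.1]
    · refine H.2.2.2 !₂[p.1, p.2] ((mem_ball _).2 hp) fun h => h0 ?_
      exact Prod.ext (congrArg (fun z => z 0) h) (congrArg (fun z => z 1) h)
  · exact analyticAt_const.mul (hco 0 z)
  · exact (analyticAt_const.mul (hco 1 z)).add (analyticAt_const.mul ((hco 0 z).pow _))
  · ext i
    fin_cases i <;> simp
  · rw [hvec _ _ _ _ (hlin a 0) ((hlin b 1).fun_add ((hpow 0).const_mul _))]
    simp
  · have := attain b a _ m (by omega) hb ha s0 s1 sQ (z 1) (z 0)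
      (by rw [add_comm]; exact (mem_ball z).1 hz) (by rw [add_comm]; exact pos_of_ne z h0)
    rw [add_comm] at this
    exact this
  · have := coef _ (hpos b a hb ha s0 s1) (m + 1)
    simpa using this
  · rintro _ ⟨h, H, rfl⟩
    have c0 := comp H (ContinuousLinearMap.snd ℂ ℂ ℂ) (ContinuousLinearMap.fst ℂ ℂ ℂ)
      (fun _ => add_comm _ _)
    unfold bound
    refine upper (fun p => h !₂[p.2, p.1] 1) (fun p => h !₂[p.2, p.1] 0) b a (crit b a (m + 1))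
      (m + 1) hk s0 s1 (c0 1).1 (c0 0).1 ?_ ?_ fun p hp h0 => ?_
    · refine (c0 1).2.congr_fderiv ?_
      ext <;> simp [mk2_apply, H.2.2.1]
    · refine (c0 0).2.congr_fderiv ?_
      ext <;> simp [mk2_apply, H.2.2.1]
    · have := H.2.2.2 !₂[p.2, p.1] ((mem_ball _).2 (by rw [add_comm]; exact hp)) fun h => h0
        (Prod.ext (congrArg (fun z => z 1) h) (congrArg (fun z => z 0) h))
      rw [add_comm] at this
      exact this

end Pool.Agent.Results.MP_eccde5_an.Sharp
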